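import Pool.Agent.H773.CS.Stm

/-!
Project CS (MP_8ad0a3_lc): the 2-adic level and the parity of a rational number.
-/

set_option autoImplicit false

namespace Pool.Agent.H967.CS

open Pool.Agent.H773.CS

theorem zm_odd {d : ℤ} (h : Odd d) : (d : ZMod 2) = 1 := by
  obtain ⟨m, rfl⟩ := h
  push_cast
  have : (2 : ZMod 2) = 0 := rfl
  rw [this, zero_mul, zero_add]

/-- canonical representation -/
theorem rep (a : ℚ) : ∃ A d : ℤ, Odd d ∧ a * (2 ^ (lev a) * d) = A ∧ (lev a = 0 ∨ Odd A) ∧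
    par a = (A : ZMod 2) := by
  obtain ⟨k, d, hd, hden⟩ := Nat.exists_eq_two_pow_mul_odd a.den_nz
  have hd0 : d ≠ 0 := by
    rintro rfl
    exact (Nat.not_odd_zero hd)
  have hlev : lev a = k := by
    unfold lev
    rw [hden, padicValNat.mul (pow_ne_zero _ two_ne_zero) hd0, padicValNat.prime_pow,
      padicValNat.eq_zero_of_not_dvd, add_zero]
    intro h
    exact (Nat.not_even_iff_odd.2 hd) (even_iff_two_dvd.2 h)
  refine ⟨a.num, (d : ℤ), by exact_mod_cast hd, ?_, ?_, rfl⟩
  · rw [hlev]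
    have h1 : ((2 : ℚ) ^ k * ((d : ℤ) : ℚ)) = (a.den : ℚ) := by
      rw [hden]
      push_cast
      ring
    rw [h1]
    exact Rat.mul_den_eq_num a
  · rw [hlev]
    rcases Nat.eq_zero_or_pos k with h | h
    · exact Or.inl h
    · right
      rw [← Int.not_even_iff_odd]
      intro hev
      have h2 : 2 ∣ a.num.natAbs := by
        have := hev.two_dvd
        exact Int.natAbs_dvd_natAbs.2 this
      have h3 : 2 ∣ a.den := by
        rw [hden]
        exact (dvd_pow_self 2 h.ne').mul_right d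
      have h4 := Nat.dvd_gcd h2 h3
      rw [a.reduced] at h4
      omega

theorem le_of {a : ℚ} {k l : ℕ} {A B d e : ℤ} (hd : Odd d) (h1 : a * (2 ^ k * d) = A)
    (h2 : a * (2 ^ l * e) = B) (hB : l = 0 ∨ Odd B) : l ≤ k := by
  by_contra hlt
  push Not at hlt
  have hB' : Odd B := hB.resolve_left (by omega)
  obtain ⟨j, hj⟩ := Nat.exists_eq_add_of_lt hlt
  have h3 : (A : ℚ) * (2 ^ (j + 1) * e) = B * d := by
    rw [← h1, ← h2, hj]
    ring
  have h4 : A * (2 ^ (j + 1) * e) = B * d := by exact_mod_cast h3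
  have h5 : Even (B * d) := by
    rw [← h4, pow_succ]
    exact ⟨A * (2 ^ j * e), by ring⟩
  exact (Int.not_even_iff_odd.2 (hB'.mul hd)) h5

/-- uniqueness of the representation -/
theorem uniq {a : ℚ} {k : ℕ} {A d : ℤ} (hd : Odd d) (h1 : a * (2 ^ k * d) = A)
    (hA : k = 0 ∨ Odd A) : lev a = k ∧ par a = (A : ZMod 2) := by
  obtain ⟨B, e, he, h2, hB, hp⟩ := rep a
  have hk : lev a = k := le_antisymm (le_of hd h1 h2 hB) (le_of he h2 h1 hA)
  refine ⟨hk, ?_⟩
  rw [hp]
  rw [hk] at h2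
  have h3 : (A : ℚ) * e = B * d := by
    rw [← h1, ← h2]
    ring
  have h4 : A * e = B * d := by exact_mod_cast h3
  have h5 : ((A * e : ℤ) : ZMod 2) = ((B * d : ℤ) : ZMod 2) := by rw [h4]
  push_cast at h5
  rw [zm_odd hd, zm_odd he, mul_one, mul_one] at h5
  exact h5.symm

theorem le_lev {a : ℚ} {k : ℕ} {A d : ℤ} (hd : Odd d) (h1 : a * (2 ^ k * d) = A) :
    lev a ≤ k := by
  obtain ⟨B, e, he, h2, hB, hp⟩ := rep a
  exact le_of hd h1 h2 hB

theorem t_lev : S_lev := by
  refine ⟨?_, ?_, ?_, ?_, ?_⟩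
  · intro a b hab
    obtain ⟨A, d, hd, hA, -, -⟩ := rep a
    obtain ⟨B, e, he, hB, hB', -⟩ := rep b
    have hBo : Odd B := hB'.resolve_left (by omega)
    obtain ⟨j, hj⟩ := Nat.exists_eq_add_of_lt hab
    refine (uniq (A := A * (2 ^ (j + 1) * e) + B * d) (hd.mul he) ?_ (Or.inr ?_)).1
    · push_cast
      rw [← hA, ← hB, hj]
      ring
    · refine Even.add_odd ?_ (hBo.mul hd)
      rw [pow_succ]
      exact ⟨A * (2 ^ j * e), by ring⟩
  · intro a b hab ha
    obtain ⟨A, d, hd, hA, hA', -⟩ := rep a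
    obtain ⟨B, e, he, hB, hB', -⟩ := rep b
    rw [← hab] at hB hB'
    have hAo : Odd A := hA'.resolve_left (by omega)
    have hBo : Odd B := hB'.resolve_left (by omega)
    obtain ⟨j, hj⟩ := Nat.exists_eq_succ_of_ne_zero ha.ne'
    have hev : Even (A * e + B * d) := (hAo.mul he).add_odd (hBo.mul hd)
    obtain ⟨m, hm⟩ := hev
    have h1 : (a + b) * (2 ^ j * ((d * e : ℤ) : ℚ)) = (m : ℤ) := by
      have h2 : ((a + b) * (2 ^ j * ((d * e : ℤ) : ℚ))) * 2 = ((A * e + B * d : ℤ) : ℚ) := by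
        push_cast
        rw [← hA, ← hB, hj, Nat.succ_eq_add_one, pow_succ]
        ring
      rw [hm] at h2
      push_cast at h2 ⊢
      linarith
    have := le_lev (hd.mul he) h1
    omega
  · intro a b ha hb
    obtain ⟨A, d, hd, hA, -, hp⟩ := rep a
    obtain ⟨B, e, he, hB, -, hp'⟩ := rep b
    rw [ha, pow_zero, one_mul] at hA
    rw [hb, pow_zero, one_mul] at hB
    have h := uniq (a := a + b) (k := 0) (A := A * e + B * d) (hd.mul he) (by
      push_cast
      rw [← hA, ← hB, pow_zero]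
      ring) (Or.inl rfl)
    refine ⟨h.1, ?_⟩
    rw [h.2, hp, hp']
    push_cast
    rw [zm_odd hd, zm_odd he, mul_one, mul_one]
  · intro a
    obtain ⟨A, d, hd, hA, hA', -⟩ := rep a
    refine (uniq (A := A - 2 ^ (lev a) * d) hd ?_ ?_).1
    · push_cast
      rw [← hA]
      ring
    · rcases hA' with h | h
      · exact Or.inl h
      · rcases Nat.eq_zero_or_pos (lev a) with h0 | h0
        · exact Or.inl h0
        · right
          refine h.sub_even ?_
          obtain ⟨j, hj⟩ := Nat.exists_eq_succ_of_ne_zero h0.ne'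
          rw [hj, Nat.succ_eq_add_one, pow_succ]
          exact ⟨2 ^ j * d, by ring⟩
  · intro a ha
    obtain ⟨A, d, hd, hA, -, hp⟩ := rep a
    rw [ha, pow_zero, one_mul] at hA
    have h := (uniq (a := a - 1) (k := 0) (A := A - d) hd (by
      push_cast
      rw [← hA, pow_zero]
      ring) (Or.inl rfl)).2
    rw [h, hp]
    push_cast
    rw [zm_odd hd]
    have : (-1 : ZMod 2) = 1 := rfl
    rw [sub_eq_add_neg, this]

theorem t_pi : S_pi := by
  obtain ⟨g, hg⟩ := LinearMap.exists_leftInverse_of_injective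
    (LinearMap.toSpanSingleton ℚ ℝ 1) (by
      rw [LinearMap.ker_eq_bot]
      intro x y hxy
      simp only [LinearMap.toSpanSingleton_apply] at hxy
      have h : ((x : ℝ)) = ((y : ℝ)) := by
        simpa [Rat.smul_def] using hxy
      exact_mod_cast h)
  refine ⟨g, ?_⟩
  have h := congrArg (fun f : ℚ →ₗ[ℚ] ℚ => f 1) hg
  simpa using h

end Pool.Agent.H967.CS
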